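import Mathlib
import Pool.Agent.H892.KT.Stm

/-!
# Kato surfaces: the Lipschitz estimate at the origin (S_LIP)
-/

set_option autoImplicit false

open Filter Topology Set
open scoped Manifold ContDiff

namespace Pool.Agent.H84.KT

open Pool.Agent.H892.KT

theorem lip_one {n : ℕ} (K : KatoData n) (i : ZMod n) :
    ∃ L δ : ℝ, 1 ≤ L ∧ 0 < δ ∧ ∀ y : ℂ × ℂ, ‖y‖ < δ → y ∈ K.U i ∧ ‖K.σ i y‖ ≤ L * ‖y‖ := by
  have hU : K.U i ∈ 𝓝 (0 : ℂ × ℂ) := (K.isOpen_U i).mem_nhds (K.zero_mem i)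
  have hd : DifferentiableAt ℂ (K.σ i) 0 := (K.diff i).differentiableAt hU
  have hO : (fun y => K.σ i y - K.σ i 0) =O[𝓝 (0 : ℂ × ℂ)] fun y => y - 0 := hd.isBigO_sub
  obtain ⟨c, hc⟩ := hO.bound
  have h1 : ∀ᶠ y in 𝓝 (0 : ℂ × ℂ), y ∈ K.U i ∧ ‖K.σ i y‖ ≤ c * ‖y‖ := by
    filter_upwards [hU, hc] with y hy hy'
    rw [K.map_zero, sub_zero, sub_zero] at hy'
    exact ⟨hy, hy'⟩
  obtain ⟨δ, hδ, h2⟩ := Metric.eventually_nhds_iff.mp h1
  refine ⟨max 1 c, δ, le_max_left _ _, hδ, fun y hy => ?_⟩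
  have h3 := h2 (y := y) (by rw [dist_zero_right]; exact hy)
  exact ⟨h3.1, h3.2.trans (mul_le_mul_of_nonneg_right (le_max_right _ _) (norm_nonneg _))⟩

theorem t_LIP : S_LIP := by
  intro n _ K
  choose L δ hL hδ h using lip_one K
  have hne : (Finset.univ : Finset (ZMod n)).Nonempty := ⟨0, Finset.mem_univ _⟩
  refine ⟨Finset.univ.sup' hne L, Finset.univ.inf' hne δ,
    (hL 0).trans (Finset.le_sup' L (Finset.mem_univ 0)),
    (Finset.lt_inf'_iff hne).mpr (fun i _ => hδ i), fun i y hy => ?_⟩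
  have h1 : ‖y‖ < δ i := lt_of_lt_of_le hy (Finset.inf'_le δ (Finset.mem_univ i))
  have h2 := h i y h1
  exact ⟨h2.1, h2.2.trans (mul_le_mul_of_nonneg_right (Finset.le_sup' L (Finset.mem_univ i))
    (norm_nonneg _))⟩

end Pool.Agent.H84.KT
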